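import Pool.Agent.H25.EE.TargetsB

/-! The rows are independent at a point very near `e`. -/

set_option autoImplicit false

open Pool.Agent.H25.EE Polynomial Finset

namespace Pool.Agent.H89.EE5.RANK

private lemma rho_ge (π : Par) : 1 ≤ rho π := by
  unfold rho
  have h1 : 0 ≤ (|lin π.x1| + |lin π.x2|) / |lin π.B| := by positivity
  have h2 : 0 ≤ (|lin π.y1| + |lin π.y2|) / |lin π.A| := by positivity
  linarith

private lemma lin_le {J : ℕ} {x : ℤ × ℤ} (hx : x ∈ nd J) (u v w : ℝ) :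
    |((x.1 : ℝ) * u + x.2 * v) / w| ≤ (|u| + |v|) / |w| * J := by
  unfold nd at hx
  rw [Finset.mem_product, Finset.mem_Icc, Finset.mem_Icc] at hx
  obtain ⟨⟨h1, h2⟩, h3, h4⟩ := hx
  have h5 : |(x.1 : ℝ)| ≤ J := by
    rw [abs_le]
    constructor
    · exact_mod_cast h1
    · exact_mod_cast h2
  have h6 : |(x.2 : ℝ)| ≤ J := by
    rw [abs_le]
    constructor
    · exact_mod_cast h3
    · exact_mod_cast h4
  rw [abs_div, div_mul_eq_mul_div]
  refine div_le_div_of_nonneg_right ?_ (abs_nonneg _)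
  refine (abs_add_le _ _).trans ?_
  rw [abs_mul, abs_mul, add_mul]
  have h7 : |(x.1 : ℝ)| * |u| ≤ J * |u| := mul_le_mul_of_nonneg_right h5 (abs_nonneg _)
  have h8 : |(x.2 : ℝ)| * |v| ≤ J * |v| := mul_le_mul_of_nonneg_right h6 (abs_nonneg _)
  linarith

private lemma om_le (π : Par) {J : ℕ} {x : ℤ × ℤ} (hx : x ∈ nd J) : ‖om π x‖ ≤ rho π * J := by
  unfold om
  rw [Complex.norm_real, Real.norm_eq_abs]
  refine (lin_le hx _ _ _).trans ?_
  refine mul_le_mul_of_nonneg_right ?_ (Nat.cast_nonneg _)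
  unfold rho
  have h2 : 0 ≤ (|lin π.y1| + |lin π.y2|) / |lin π.A| := by positivity
  linarith

private lemma ze_le (π : Par) {J : ℕ} {x : ℤ × ℤ} (hx : x ∈ nd J) : ‖ze π x‖ ≤ rho π * J := by
  unfold ze
  rw [Complex.norm_real, Real.norm_eq_abs]
  refine (lin_le hx _ _ _).trans ?_
  refine mul_le_mul_of_nonneg_right ?_ (Nat.cast_nonneg _)
  unfold rho
  have h2 : 0 ≤ (|lin π.x1| + |lin π.x2|) / |lin π.B| := by positivity
  linarith

private lemma card_Ix (σ : ℚ) (J : ℕ) : (Ix σ J).card = ∑ x ∈ nd J, mlt σ J x := by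
  unfold Ix
  rw [Finset.card_sigma]
  simp

private lemma mem_Ix {σ : ℚ} {J : ℕ} {x : ℤ × ℤ} {i : ℕ} :
    (⟨x, i⟩ : Idx) ∈ Ix σ J ↔ x ∈ nd J ∧ i < mlt σ J x := by
  unfold Ix
  rw [Finset.mem_sigma, Finset.mem_range]

private lemma thr_nonneg {J : ℕ} (hJ : 1 ≤ J) : 0 ≤ thr J := by
  unfold thr
  have : 0 ≤ Real.log J := Real.log_natCast_nonneg J
  positivity

private lemma one_le_log {J : ℕ} (hJ : 3 ≤ J) : 1 ≤ Real.log J := by
  rw [Real.le_log_iff_exp_le (by positivity)]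
  have h1 := Real.exp_one_lt_d9
  have h2 : (3 : ℝ) ≤ J := by exact_mod_cast hJ
  linarith

private lemma colbound (π : Par) (hENT : T_ENT) {C C' : ℝ} (hC : 0 ≤ C) (hC' : 0 ≤ C') {J k' : ℕ}
    (hJ : 3 ≤ J)
    (hBa : ∀ a ∈ Ix s0 J, Real.exp (-(C * (J : ℝ) ^ 2)) ≤ ‖ra π a‖ ∧ ∀ n : ℕ, ‖al π a n‖ ≤
      Real.exp (C * (J : ℝ) ^ 2) * ((n : ℝ) + 1) ^ (J ^ 2) * (rho π * J) ^ n)
    (hBb : ∀ b ∈ Ix s1 J, Real.exp (-(C * (J : ℝ) ^ 2)) ≤ ‖cb π J b‖ ∧ ∀ n : ℕ, ‖be π J b n‖ ≤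
      Real.exp (C * (J : ℝ) ^ 2) * ((n : ℝ) + 1) ^ (J ^ 2) * (rho π * J) ^ n / n.factorial)
    (hDf : ∀ a ∈ Ix s0 J, ∀ b ∈ Ix s1 J, ∀ x : ℂ, ‖x - ee‖ ≤ 1 →
      ‖ev (mm π J a b) x - ev (mm π J a b) ee‖ ≤
        ‖x - ee‖ * Real.exp (C' * (J : ℝ) ^ 2 * Real.log J))
    {τ : ℝ} (hsum : Summable (gt 0 (rho π) J)) (htail : ∑' n, gt 0 (rho π) J (n + k') ≤ τ)
    {α : ℂ} (hα : ‖α - ee‖ ≤ Real.exp (-(thr J))) {c : Idx → ℂ}
    (hc : ∀ b ∈ Ix s1 J, ∑ a ∈ Ix s0 J, c a * ev (mm π J a b) α = 0)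
    {m0 : ℝ} (hm0 : 0 ≤ m0) (hm : ∀ a ∈ Ix s0 J, ‖c a * ra π a‖ ≤ m0) (b : Idx)
    (hb : b ∈ Ix s1 J) :
    ‖∑ n ∈ range k', (∑ a ∈ Ix s0 J, c a * al π a n) / (n.factorial : ℂ) *
      ((n.descFactorial b.2 : ℂ) * ze π b.1 ^ (n - b.2))‖ ≤
      (Ix s0 J).card * m0 * (Real.exp ((4 * C + C') * (J : ℝ) ^ 2 * Real.log J) *
        (Real.exp (-(thr J)) + τ)) := by
  have hL := one_le_log hJ
  set M : ℝ := Real.exp (C * (J : ℝ) ^ 2) with hM
  have hM0 : 0 < M := Real.exp_pos _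
  have hMi : Real.exp (-(C * (J : ℝ) ^ 2)) = M⁻¹ := by rw [Real.exp_neg]
  set k : ℝ := ((Ix s0 J).card : ℝ) with hk
  have hk0 : 0 ≤ k := Nat.cast_nonneg _
  have hρ : 0 ≤ rho π * J := mul_nonneg (by linarith [rho_ge π]) (Nat.cast_nonneg _)
  have hca : ∀ a ∈ Ix s0 J, ‖c a‖ ≤ m0 * M := by
    intro a ha
    have h1 := (hBa a ha).1
    rw [hMi] at h1
    have h2 : 1 ≤ M * ‖ra π a‖ := by
      have := mul_le_mul_of_nonneg_left h1 hM0.le
      rwa [mul_inv_cancel₀ hM0.ne'] at this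
    calc ‖c a‖ = ‖c a‖ * 1 := (mul_one _).symm
      _ ≤ ‖c a‖ * (M * ‖ra π a‖) := mul_le_mul_of_nonneg_left h2 (norm_nonneg _)
      _ = ‖c a * ra π a‖ * M := by rw [norm_mul]; ring
      _ ≤ m0 * M := mul_le_mul_of_nonneg_right (hm a ha) hM0.le
  have hS : HasSum (fun n => (∑ a ∈ Ix s0 J, c a * al π a n) * be π J b n)
      (∑ a ∈ Ix s0 J, c a * ev (mm π J a b) ee) := by
    have h1 := hasSum_sum (s := Ix s0 J) (f := fun a n => c a * (al π a n * be π J b n))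
      (a := fun a => c a * ev (mm π J a b) ee) fun a ha => (hENT π J a b ha hb).mul_left (c a)
    have e1 : (fun n => ∑ a ∈ Ix s0 J, c a * (al π a n * be π J b n)) =
        fun n => (∑ a ∈ Ix s0 J, c a * al π a n) * be π J b n := by
      funext n
      rw [Finset.sum_mul]
      exact Finset.sum_congr rfl fun a _ => by ring
    rwa [e1] at h1
  -- the value at `e`
  have hthr : Real.exp (-(thr J)) ≤ 1 := by
    rw [← Real.exp_zero]
    exact Real.exp_le_exp.mpr (by linarith [thr_nonneg (J := J) (by omega)])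
  have hS1 : ‖∑ a ∈ Ix s0 J, c a * ev (mm π J a b) ee‖ ≤
      k * (m0 * M * (Real.exp (-(thr J)) * Real.exp (C' * (J : ℝ) ^ 2 * Real.log J))) := by
    have e1 : ∑ a ∈ Ix s0 J, c a * ev (mm π J a b) ee =
        -∑ a ∈ Ix s0 J, c a * (ev (mm π J a b) α - ev (mm π J a b) ee) := by
      have h2 := hc b hb
      have e2 : ∑ a ∈ Ix s0 J, c a * (ev (mm π J a b) α - ev (mm π J a b) ee) =
          ∑ a ∈ Ix s0 J, c a * ev (mm π J a b) α - ∑ a ∈ Ix s0 J, c a * ev (mm π J a b) ee := by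
        rw [← Finset.sum_sub_distrib]
        exact Finset.sum_congr rfl fun a _ => by ring
      rw [e2, h2]
      ring
    rw [e1, norm_neg]
    refine (norm_sum_le _ _).trans ?_
    rw [hk, ← nsmul_eq_mul]
    refine Finset.sum_le_card_nsmul _ _ _ fun a ha => ?_
    rw [norm_mul]
    refine mul_le_mul (hca a ha) ?_ (norm_nonneg _) (by positivity)
    refine (hDf a ha b hb α (hα.trans hthr)).trans ?_
    exact mul_le_mul_of_nonneg_right hα (Real.exp_nonneg _)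
  -- the terms
  have hterm : ∀ n : ℕ, ‖(∑ a ∈ Ix s0 J, c a * al π a n) * be π J b n‖ ≤
      (k * m0 * M ^ 3) * gt 0 (rho π) J n := by
    intro n
    have h1 : ‖∑ a ∈ Ix s0 J, c a * al π a n‖ ≤
        k * (m0 * M * (M * ((n : ℝ) + 1) ^ (J ^ 2) * (rho π * J) ^ n)) := by
      refine (norm_sum_le _ _).trans ?_
      rw [hk, ← nsmul_eq_mul]
      refine Finset.sum_le_card_nsmul _ _ _ fun a ha => ?_
      rw [norm_mul]
      exact mul_le_mul (hca a ha) ((hBa a ha).2 n) (norm_nonneg _) (by positivity)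
    rw [norm_mul]
    refine (mul_le_mul h1 ((hBb b hb).2 n) (norm_nonneg _) (by positivity)).trans (le_of_eq ?_)
    unfold gt
    rw [zero_mul, Real.exp_zero, one_mul, show 2 * J ^ 2 = J ^ 2 + J ^ 2 by ring,
      show 2 * n = n + n by ring, pow_add, pow_add]
    ring
  have hgt : ∀ n, 0 ≤ gt 0 (rho π) J n := by
    intro n
    unfold gt
    positivity
  have hsumk : Summable fun n => gt 0 (rho π) J (n + k') := (summable_nat_add_iff k').mpr hsum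
  have hτ : 0 ≤ τ := le_trans (tsum_nonneg fun n => hgt _) htail
  have htail2 : ‖∑' n, (∑ a ∈ Ix s0 J, c a * al π a (n + k')) * be π J b (n + k')‖ ≤
      (k * m0 * M ^ 3) * τ := by
    have h1 := tsum_of_norm_bounded (hsumk.mul_left (k * m0 * M ^ 3)).hasSum
      fun n => hterm (n + k')
    rw [tsum_mul_left] at h1
    exact h1.trans (mul_le_mul_of_nonneg_left htail (by positivity))
  have hhead : ‖∑ n ∈ range k', (∑ a ∈ Ix s0 J, c a * al π a n) * be π J b n‖ ≤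
      k * (m0 * M * (Real.exp (-(thr J)) * Real.exp (C' * (J : ℝ) ^ 2 * Real.log J))) +
        (k * m0 * M ^ 3) * τ := by
    have h1 := hS.summable.sum_add_tsum_nat_add k'
    rw [hS.tsum_eq] at h1
    have h2 : ∑ n ∈ range k', (∑ a ∈ Ix s0 J, c a * al π a n) * be π J b n =
        ∑ a ∈ Ix s0 J, c a * ev (mm π J a b) ee -
          ∑' n, (∑ a ∈ Ix s0 J, c a * al π a (n + k')) * be π J b (n + k') := by
      rw [← h1]
      ring
    rw [h2]
    exact (norm_sub_le _ _).trans (add_le_add hS1 htail2)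
  have hcb := (hBb b hb).1
  rw [hMi] at hcb
  have hcb0 : cb π J b ≠ 0 := by
    intro h
    rw [h, norm_zero] at hcb
    have := inv_pos.mpr hM0
    linarith
  have e3 : ∑ n ∈ range k', (∑ a ∈ Ix s0 J, c a * al π a n) / (n.factorial : ℂ) *
      ((n.descFactorial b.2 : ℂ) * ze π b.1 ^ (n - b.2)) =
      (cb π J b)⁻¹ * ∑ n ∈ range k', (∑ a ∈ Ix s0 J, c a * al π a n) * be π J b n := by
    rw [Finset.mul_sum]
    refine Finset.sum_congr rfl fun n _ => ?_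
    unfold be
    field_simp
  have hcbi : ‖(cb π J b)⁻¹‖ ≤ M := by
    rw [norm_inv]
    exact inv_le_of_inv_le₀ hM0 hcb
  rw [e3, norm_mul]
  refine (mul_le_mul hcbi hhead (norm_nonneg _) hM0.le).trans ?_
  have hJ2 : 0 ≤ C * (J : ℝ) ^ 2 := by positivity
  have hJ2' : 0 ≤ C' * (J : ℝ) ^ 2 := by positivity
  have hle : C * (J : ℝ) ^ 2 ≤ C * (J : ℝ) ^ 2 * Real.log J := le_mul_of_one_le_right hJ2 hL
  have h4 : M * M * Real.exp (C' * (J : ℝ) ^ 2 * Real.log J) ≤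
      Real.exp ((4 * C + C') * (J : ℝ) ^ 2 * Real.log J) := by
    rw [hM, ← Real.exp_add, ← Real.exp_add]
    refine Real.exp_le_exp.mpr ?_
    nlinarith
  have h5 : M * M ^ 3 ≤ Real.exp ((4 * C + C') * (J : ℝ) ^ 2 * Real.log J) := by
    have e4 : M * M ^ 3 = Real.exp (4 * (C * (J : ℝ) ^ 2)) := by
      rw [← pow_succ', hM, ← Real.exp_nat_mul]
      norm_num
    rw [e4]
    refine Real.exp_le_exp.mpr ?_
    have : 0 ≤ C' * (J : ℝ) ^ 2 * Real.log J := mul_nonneg hJ2' (by linarith)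
    nlinarith
  calc M * (k * (m0 * M * (Real.exp (-(thr J)) * Real.exp (C' * (J : ℝ) ^ 2 * Real.log J))) +
        (k * m0 * M ^ 3) * τ) =
        (k * m0) * ((M * M * Real.exp (C' * (J : ℝ) ^ 2 * Real.log J)) *
          Real.exp (-(thr J)) + (M * M ^ 3) * τ) := by ring
    _ ≤ (k * m0) * (Real.exp ((4 * C + C') * (J : ℝ) ^ 2 * Real.log J) *
          Real.exp (-(thr J)) + Real.exp ((4 * C + C') * (J : ℝ) ^ 2 * Real.log J) * τ) := by
        gcongr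
    _ = _ := by ring

/-- the chain of inequalities -/
private lemma small {J k n : ℕ} {R g E : ℝ} (hR : 1 ≤ R) (hJ : 1 ≤ J) (hn : n < k)
    (hkJ : k ≤ J ^ 4) (hE : 0 ≤ E)
    (h : g / n.factorial * (R * J) ^ n ≤ E) : g ≤ (J : ℝ) ^ (2 * k) * E * (R * J) ^ n := by
  have hJ' : (1 : ℝ) ≤ J := by exact_mod_cast hJ
  have hRJ : (J : ℝ) ≤ R * J := le_mul_of_one_le_left (by linarith) hR
  have hRJ1 : 1 ≤ R * J := hJ'.trans hRJ
  have hf : (0 : ℝ) < n.factorial := by exact_mod_cast Nat.factorial_pos n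
  have h1 : (n.factorial : ℝ) ≤ (J : ℝ) ^ (4 * n) := by
    have h2 : n.factorial ≤ n ^ n := Nat.factorial_le_pow n
    have h3 : n ^ n ≤ (J ^ 4) ^ n := Nat.pow_le_pow_left (by omega) n
    have h4 := h2.trans h3
    rw [← pow_mul] at h4
    exact_mod_cast h4
  have h5 : g * (R * J) ^ n ≤ E * n.factorial := by
    rw [div_mul_eq_mul_div, div_le_iff₀ hf] at h
    exact h
  have h6 : (J : ℝ) ^ (4 * n) ≤ (J : ℝ) ^ (2 * k) * ((R * J) ^ n * (R * J) ^ n) := by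
    have h7 : (J : ℝ) ^ n * (J : ℝ) ^ n ≤ (R * J) ^ n * (R * J) ^ n := by gcongr
    have h8 : (J : ℝ) ^ (2 * n) ≤ (J : ℝ) ^ (2 * k) := pow_le_pow_right₀ hJ' (by omega)
    calc (J : ℝ) ^ (4 * n) = (J : ℝ) ^ (2 * n) * ((J : ℝ) ^ n * (J : ℝ) ^ n) := by ring
      _ ≤ _ := by gcongr
  have h9 : g * (R * J) ^ n ≤ ((J : ℝ) ^ (2 * k) * E * (R * J) ^ n) * (R * J) ^ n := by
    calc g * (R * J) ^ n ≤ E * n.factorial := h5
      _ ≤ E * ((J : ℝ) ^ (2 * k) * ((R * J) ^ n * (R * J) ^ n)) := by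
        exact mul_le_mul_of_nonneg_left (h1.trans h6) hE
      _ = _ := by ring
  exact le_of_mul_le_mul_right h9 (by positivity)

theorem pf_RANK (hENT : T_ENT) (hBND : T_BND) (hDIFF : T_DIFF) (hRL : T_RL) (hDUAL : T_DUAL)
    (hSPR : T_SPR) (hSEP : T_SEP) (hTAIL : T_TAIL) (hNUM : T_NUM) (hCARD : T_CARD) : T_RANK := by
  intro π
  obtain ⟨C, hC, hB⟩ := hBND π
  obtain ⟨C', hC', hD⟩ := hDIFF π
  obtain ⟨J1, hS⟩ := hSPR π
  obtain ⟨J2, hQ0⟩ := hSEP π s0 (Or.inl rfl) (1 / 10000) (by norm_num)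
  obtain ⟨J3, hQ1⟩ := hSEP π s1 (Or.inr rfl) (1 / 10000) (by norm_num)
  obtain ⟨J4, hT⟩ := hTAIL (rho π) (1 / 10000) (rho_ge π) (by norm_num)
  obtain ⟨J5, hN⟩ := hNUM (rho π) (4 * C + C') (rho_ge π) (by positivity)
  obtain ⟨hc1, hc2, hc3, ⟨J6, hc4⟩, hc5⟩ := hCARD
  refine ⟨J1 + J2 + J3 + J4 + J5 + J6 + 200, fun J hJ α hα c hc => ?_⟩
  have hJ200 : 200 ≤ J := by omega
  have hJ1' : 1 ≤ J := by omega
  have hJr : (200 : ℝ) ≤ J := by exact_mod_cast hJ200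
  have hL := one_le_log (J := J) (by omega)
  have hB' := hB J hJ1'
  have hD' := hD J (by omega)
  have hS' := hS J (by omega)
  have hQ0' := hQ0 J (by omega)
  have hQ1' := hQ1 J (by omega)
  obtain ⟨hTs, hT'⟩ := hT J (by omega)
  have hN' := hN J (by omega)
  have hk1 := hc1 J hJ1'
  have hk2 := hc2 J hJ1'
  have hk3 := hc3 J hJ1'
  have hk4 := hc4 J (by omega)
  have hml := hc5 J
  set k := (Ix s0 J).card with hk
  set k' := (Ix s1 J).card with hk'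
  have hJ4 : (0 : ℝ) < (J : ℝ) ^ 4 := by positivity
  have hJ24 : (40000 : ℝ) * (J : ℝ) ^ 2 ≤ (J : ℝ) ^ 4 := by
    have : (40000 : ℝ) ≤ (J : ℝ) ^ 2 := by nlinarith
    calc (40000 : ℝ) * (J : ℝ) ^ 2 ≤ (J : ℝ) ^ 2 * (J : ℝ) ^ 2 := by gcongr
      _ = _ := by ring
  have hk1000 : J ^ 4 ≤ 1000 * k := by
    have : ((J ^ 4 : ℕ) : ℝ) ≤ ((1000 * k : ℕ) : ℝ) := by
      push_cast
      nlinarith
    exact_mod_cast this
  have hk'1000 : J ^ 4 ≤ 1000 * k' := by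
    have : ((J ^ 4 : ℕ) : ℝ) ≤ ((1000 * k' : ℕ) : ℝ) := by
      push_cast
      nlinarith
    exact_mod_cast this
  have hkk' : k ≤ k' := by
    have : (k : ℝ) ≤ (k' : ℝ) := by nlinarith
    exact_mod_cast this
  have hk'4 : k' ≤ J ^ 4 := by
    have : (k' : ℝ) ≤ ((J ^ 4 : ℕ) : ℝ) := by
      push_cast
      nlinarith
    exact_mod_cast this
  have htail := hT' k' hk'1000 hk'4
  have hρ := rho_ge π
  have hρJ : 1 ≤ rho π * J := by nlinarith
  -- the maximum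
  by_cases hne : (Ix s0 J).Nonempty
  swap
  · intro a ha
    exact absurd ⟨a, ha⟩ hne
  obtain ⟨a0, ha0, hmax⟩ := Finset.exists_max_image (Ix s0 J) (fun a => ‖c a * ra π a‖) hne
  set m0 := ‖c a0 * ra π a0‖ with hm0
  have hra : ∀ a ∈ Ix s0 J, ra π a ≠ 0 := by
    intro a ha h
    have := (hB'.1 a ha).1
    rw [h, norm_zero] at this
    exact absurd this (not_le.mpr (Real.exp_pos _))
  rcases (norm_nonneg (c a0 * ra π a0)).eq_or_lt with h0 | hpos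
  · intro a ha
    have h1 : ‖c a * ra π a‖ ≤ 0 := by
      rw [h0]
      exact hmax a ha
    have h2 : c a * ra π a = 0 := norm_le_zero_iff.mp h1
    exact (mul_eq_zero.mp h2).resolve_right (hra a ha)
  exfalso
  rw [← hm0] at hpos
  set E : ℝ := (k : ℝ) * m0 * (Real.exp ((4 * C + C') * (J : ℝ) ^ 2 * Real.log J) *
    (Real.exp (-(thr J)) + Real.exp (-((2 - 1 / 10000) * k' * Real.log J)))) with hE
  have hE0 : 0 ≤ E := by positivity
  clear_value E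
  have hcol : ∀ b ∈ Ix s1 J, ‖∑ n ∈ range k', (∑ a ∈ Ix s0 J, c a * al π a n) /
      (n.factorial : ℂ) * ((n.descFactorial b.2 : ℂ) * ze π b.1 ^ (n - b.2))‖ ≤ E := by
    intro b hb
    rw [hE]
    exact colbound π hENT hC hC' (by omega) hB'.1 hB'.2 hD' hTs htail hα hc hpos.le hmax b hb
  -- Hermite interpolation
  have hdual := hDUAL (ℤ × ℤ) (nd J) (ze π) (mlt s1 J) (rho π * J) (1 / (J : ℝ) ^ 3) E
    (Real.exp ((1 - 1 / 10000) * k' * Real.log J)) (J ^ 2)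
    (fun n => (∑ a ∈ Ix s0 J, c a * al π a n) / (n.factorial : ℂ)) hρJ (by positivity)
    (by
      rw [div_le_one (by positivity)]
      have : (1 : ℝ) ≤ J := by linarith
      exact one_le_pow₀ this) hE0 (Real.exp_pos _) (Nat.one_le_pow _ _ (by omega))
    (fun x hx => ⟨ze_le π hx, (hml x hx).2⟩)
    (fun x hx y hy hxy => by
      rw [div_le_iff₀ (by positivity), mul_comm]
      exact (hS' x hx y hy hxy).2)
    (fun x hx => (hQ1' x hx).2)
    (fun x hx i hi => by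
      rw [← card_Ix]
      exact hcol ⟨x, i⟩ (mem_Ix.mpr ⟨hx, hi⟩))
  rw [← card_Ix, ← hk'] at hdual
  set Λ' : ℝ := (2 * (rho π * J)) ^ k' / Real.exp ((1 - 1 / 10000) * k' * Real.log J) *
      (2 * (J : ℝ) ^ 2 * k' * (J : ℝ) ^ 3) ^ (J ^ 2) with hΛ'
  have hΛ'0 : 0 ≤ Λ' := by positivity
  clear_value Λ'
  have hkEΛ : 0 ≤ (k' : ℝ) * E * Λ' := mul_nonneg (mul_nonneg (Nat.cast_nonneg _) hE0) hΛ'0
  have hJk : 0 ≤ (J : ℝ) ^ (2 * k) * (k' * E * Λ') :=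
    mul_nonneg (pow_nonneg (Nat.cast_nonneg _) _) hkEΛ
  have hG : ∀ n < k, ‖∑ a ∈ Ix s0 J, c a * al π a n‖ ≤
      ((J : ℝ) ^ (2 * k) * (k' * E * Λ')) * (rho π * J) ^ n := by
    intro n hn
    have h1 := hdual n (lt_of_lt_of_le hn hkk')
    rw [norm_div, Complex.norm_natCast] at h1
    refine small hρ hJ1' hn (hkk'.trans hk'4) hkEΛ (h1.trans (le_of_eq ?_))
    rw [hΛ']
    push_cast
    rw [div_div_eq_mul_div, div_one]
    ring
  -- recovery of the coefficients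
  have hrl := hRL (ℤ × ℤ) (nd J) (om π) (mlt s0 J) (fun x i => c ⟨x, i⟩ * ra π ⟨x, i⟩)
    (rho π * J) (1 / (J : ℝ) ^ 3) ((J : ℝ) ^ (2 * k) * (k' * E * Λ'))
    (Real.exp ((1 - 1 / 10000) * k * Real.log J)) (J ^ 2) hρJ (by positivity)
    (by
      rw [div_le_one (by positivity)]
      have : (1 : ℝ) ≤ J := by linarith
      exact one_le_pow₀ this) hJk (Real.exp_pos _) (Nat.one_le_pow _ _ (by omega))
    (fun x hx => ⟨om_le π hx, (hml x hx).1⟩)
    (fun x hx y hy hxy => by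
      rw [div_le_iff₀ (by positivity), mul_comm]
      exact (hS' x hx y hy hxy).1)
    (fun x hx => (hQ0' x hx).1)
    (fun n hn => by
      rw [← card_Ix] at hn
      refine le_trans (le_of_eq ?_) (hG n hn)
      congr 1
      unfold Ix
      rw [Finset.sum_sigma]
      refine Finset.sum_congr rfl fun x _ => Finset.sum_congr rfl fun i _ => ?_
      unfold al
      ring)
  rw [← card_Ix, ← hk] at hrl
  obtain ⟨ha1, ha2⟩ := mem_Ix.mp (show (⟨a0.1, a0.2⟩ : Idx) ∈ Ix s0 J from ha0)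
  have hfin := hrl a0.1 ha1 a0.2 ha2
  have hnum := hN' k k' hk1 hk1000 hk4 hk2
  have e1 : ((J : ℝ) ^ (2 * k) * (k' * E * Λ')) *
      ((2 * (rho π * J)) ^ k / Real.exp ((1 - 1 / 10000) * k * Real.log J)) *
      (2 * ((J ^ 2 : ℕ) : ℝ) * (k : ℝ) / (1 / (J : ℝ) ^ 3)) ^ (J ^ 2) =
      m0 * ((J : ℝ) ^ (2 * k) * ((k : ℝ) * k') *
    ((2 * (rho π * J)) ^ k' / Real.exp ((1 - 1 / 10000) * k' * Real.log J) *
      (2 * (J : ℝ) ^ 2 * k' * (J : ℝ) ^ 3) ^ (J ^ 2)) *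
    ((2 * (rho π * J)) ^ k / Real.exp ((1 - 1 / 10000) * k * Real.log J) *
      (2 * (J : ℝ) ^ 2 * k * (J : ℝ) ^ 3) ^ (J ^ 2)) *
    (Real.exp ((4 * C + C') * (J : ℝ) ^ 2 * Real.log J) * (Real.exp (-(thr J)) +
      Real.exp (-((2 - 1 / 10000) * k' * Real.log J))))) := by
    rw [hE, hΛ']
    push_cast
    rw [div_div_eq_mul_div, div_one]
    ring
  have hlt : m0 < m0 := by
    calc m0 ≤ ((J : ℝ) ^ (2 * k) * (k' * E * Λ')) *
      ((2 * (rho π * J)) ^ k / Real.exp ((1 - 1 / 10000) * k * Real.log J)) *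
      (2 * ((J ^ 2 : ℕ) : ℝ) * (k : ℝ) / (1 / (J : ℝ) ^ 3)) ^ (J ^ 2) := hfin
      _ = _ := e1
      _ < m0 * 1 := mul_lt_mul_of_pos_left hnum hpos
      _ = m0 := mul_one _
  exact lt_irrefl _ hlt

end Pool.Agent.H89.EE5.RANK
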